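import Pool.Agent.MP_8d06cc_nt.RN.Far
import Pool.Agent.MP_8d06cc_nt.AB.Spec

/-! Block RN: the real normalisation. -/

namespace Pool.Agent.MP_8d06cc_nt.RN

open Filter Topology Complex Polynomial Metric Set
open AB (qv Cl)

noncomputable section

/-- a polynomial function of degree at most eight -/
def ev (a : Fin 9 → ℂ) (x : ℂ) : ℂ := ∑ i, a i * x ^ (i : ℕ)

/-- the coefficients -/
def cf (f : ℂ[X]) : Fin 9 → ℂ := fun i => f.coeff i

lemma ev_cf {f : ℂ[X]} (h : f.natDegree = 8) : (fun x => f.eval x) = ev (cf f) := by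
  funext x
  rw [eval_eq_sum_range' (n := 9) (by omega), Finset.sum_range]
  rfl

lemma cf_lt {f g : ℂ[X]} {ε : ℝ} (h : Cl f ε g) : ‖cf g - cf f‖ < ε :=
  (pi_norm_lt_iff ((norm_nonneg _).trans_lt (h.2.2 0))).2 fun i => h.2.2 i

lemma ev_cont {X : Type} [TopologicalSpace X] {a : X → Fin 9 → ℂ} {x : X → ℂ} (ha : Continuous a)
    (hx : Continuous x) : Continuous fun p => ev (a p) (x p) := by
  unfold ev; fun_prop

lemma ktd {α : Type*} {l : Filter α} {h : α → ℂ} {w z : ℂ} (d : ℂ) (hz : 0 < (z / w ^ 2).re)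
    (hh : Tendsto h l (𝓝 z)) : Tendsto (fun x => d / sq w (h x)) l (𝓝 (d / sq w z)) :=
  tendsto_const_nhds.div ((contAt_sq hz).tendsto.comp hh) (sq_ne hz)

lemma kev {a₁ : Fin 9 → ℂ} {s₁ : ℂ} {a : St} (h : Val (ev a₁) a s₁) {η : ℝ} (hη : 0 < η) :
    ∀ᶠ p : (Fin 9 → ℂ) × ℂ in 𝓝 (a₁, s₁), ∀ t ∈ Icc (0 : ℝ) 1,
      0 < (ev p.1 (pt a p.2 t) / a.w ^ 2).re ∧ ‖kr (ev p.1) a p.2 t - kr (ev a₁) a s₁ t‖ ≤ η := by
  refine isCompact_Icc.eventually_forall_of_forall_eventually fun t ht => ?_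
  have c1 : Continuous fun z : ((Fin 9 → ℂ) × ℂ) × ℝ => ev z.1.1 (pt a z.1.2 z.2) :=
    ev_cont (by fun_prop) (by unfold pt; fun_prop)
  have c2 : Continuous fun z : ((Fin 9 → ℂ) × ℂ) × ℝ => ev a₁ (pt a s₁ z.2) :=
    ev_cont (by fun_prop) (by unfold pt; fun_prop)
  have c3 := ((ktd (a.x1 - a.x0) (h t ht) (c1.tendsto ((a₁, s₁), t))).sub
    (ktd (a.x1 - a.x0) (h t ht) (c2.tendsto ((a₁, s₁), t)))).norm
  rw [sub_self, norm_zero] at c3
  exact (ev_re (h t ht) (c1.tendsto _)).and (c3.eventually_le_const hη)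

lemma can {a₀ : Fin 9 → ℂ} {x w : ℂ} (h : 0 < (ev a₀ x / w ^ 2).re) :
    ∀ᶠ p : (Fin 9 → ℂ) × ℂ in 𝓝 (a₀, 0),
      sq w (ev p.1 (x + p.2)) = sq (sq w (ev a₀ x)) (ev p.1 (x + p.2)) := by
  have c1 : Tendsto (fun p : (Fin 9 → ℂ) × ℂ => ev p.1 (x + p.2)) (𝓝 (a₀, 0)) (𝓝 (ev a₀ x)) :=
    (ev_cont continuous_fst (by fun_prop)).tendsto' _ _ (by simp)
  have hw := (ne_of_re h).1
  have hY := sq_ne h
  refine root_eq hY ((contAt_sq h).tendsto.comp c1) ?_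
    (Eventually.of_forall fun p => by rw [sq_sq hw, sq_sq hY])
  have := (contAt_sq (re_self hY)).tendsto
  rw [sq_self hY, sq_sq hw] at this
  exact this.comp c1

variable {ι : Type} [Fintype ι] {st : ι → St} {c : ι → Fin 3 → ℂ}

lemma nb {a₀ : Fin 9 → ℂ} (h : Cyc (ev a₀) st c) {η : ℝ} (hη : 0 < η) :
    ∃ r : ℝ, 0 < r ∧ r ≤ 1 ∧ ∀ a s, ‖a - a₀‖ < r → ‖s‖ < r → Good st c (ev a) s ∧
      ∀ i, ∀ t ∈ Icc (0 : ℝ) 1, ‖kr (ev a) (st i) s t - kr (ev a₀) (st i) 0 t‖ ≤ η := by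
  have h0 := eventually_all.2 fun i => can (a₀ := a₀) (x := (st i).x0) (w := (st i).w)
    (by simpa using h.val i 0 (left_mem_Icc.2 zero_le_one))
  have h1 := eventually_all.2 fun i => can (a₀ := a₀) (x := (st i).x1) (w := (st i).w)
    (by simpa using h.val i 1 (right_mem_Icc.2 zero_le_one))
  have h2 := eventually_all.2 fun i => kev (h.val i) hη
  obtain ⟨r, hr, h3⟩ := eventually_nhds_iff_ball.1 ((h0.and h1).and h2)
  refine ⟨min r 1, by positivity, min_le_right _ _, fun a s ha hs => ?_⟩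
  obtain ⟨⟨b0, b1⟩, b2⟩ := h3 (a, s) (by
    rw [← ball_prod_same]
    exact ⟨mem_ball_iff_norm.2 (ha.trans_le (min_le_left _ _)),
      mem_ball_zero_iff.2 (hs.trans_le (min_le_left _ _))⟩)
  refine ⟨⟨fun i t ht => (b2 i t ht).1, fun H => ?_⟩, fun i t ht => (b2 i t ht).2⟩
  rw [← h.bd fun x y => H (x + s) (sq y (ev a (x + s)))]
  exact Finset.sum_congr rfl fun i _ => by rw [← b0 i, ← b1 i]

/-- a real linear map close to the identity -/
structure Inv (T : (Fin 3 → ℂ) → Fin 3 → ℂ) : Prop where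
  add : ∀ p q, T (p + q) = T p + T q
  smul : ∀ (r : ℝ) p, T (r • p) = r • T p
  half : ∀ p, ‖T p - p‖ ≤ ‖p‖ / 2

section
variable {T : (Fin 3 → ℂ) → Fin 3 → ℂ}

lemma Inv.le (h : Inv T) (p : Fin 3 → ℂ) : ‖p‖ ≤ 2 * ‖T p‖ := by
  have h1 := norm_sub_le (T p) (T p - p)
  rw [sub_sub_cancel] at h1
  linarith [h.half p]

lemma Inv.sub (h : Inv T) (p q : Fin 3 → ℂ) : T (p - q) = T p - T q := by
  rw [eq_sub_iff_add_eq, ← h.add, sub_add_cancel]

lemma Inv.inj (h : Inv T) : Function.Injective T := fun p q e => by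
  have := h.le (p - q)
  rw [h.sub, e, sub_self, norm_zero, mul_zero] at this
  exact sub_eq_zero.1 (norm_le_zero_iff.1 this)

lemma Inv.app (h : Inv T) (y : Fin 3 → ℂ) : T (Function.invFun T y) = y :=
  Function.rightInverse_invFun (LinearMap.injective_iff_surjective.1
    (show Function.Injective (⟨⟨T, h.add⟩, h.smul⟩ : (Fin 3 → ℂ) →ₗ[ℝ] Fin 3 → ℂ) from h.inj)) y

end

lemma qv_le {R : ℝ} (hR : 1 ≤ R) {x : ℂ} (hx : ‖x‖ ≤ R) (q : Fin 3 → ℂ) :
    ‖qv q x‖ ≤ 3 * R ^ 2 * ‖q‖ := by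
  have h : ∀ j : Fin 3, ‖q j * x ^ (j : ℕ)‖ ≤ R ^ 2 * ‖q‖ := fun j => by
    rw [norm_mul, norm_pow, mul_comm]
    exact mul_le_mul ((pow_le_pow_left₀ (norm_nonneg _) hx _).trans
      (pow_le_pow_right₀ hR (by omega))) (norm_le_pi_norm q j) (norm_nonneg _) (by positivity)
  refine (norm_sum_le_of_le _ fun j _ => h j).trans (le_of_eq ?_)
  simp; ring

lemma rad (st : ι → St) : ∃ R : ℝ, 1 ≤ R ∧ ∀ s, ‖s‖ ≤ 1 → ∀ x ∈ Gam st s, ‖x‖ ≤ R := by
  refine ⟨∑ i, (‖(st i).x0‖ + ‖(st i).x1 - (st i).x0‖) + 1,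
    le_add_of_nonneg_left (by positivity), fun s hs x hx => ?_⟩
  obtain ⟨i, t, ht, rfl⟩ := mem_iUnion.1 hx
  have h1 := Finset.single_le_sum (f := fun i => ‖(st i).x0‖ + ‖(st i).x1 - (st i).x0‖)
    (fun _ _ => by positivity) (Finset.mem_univ i)
  have h2 : ‖(t : ℂ) * ((st i).x1 - (st i).x0)‖ ≤ ‖(st i).x1 - (st i).x0‖ := by
    rw [norm_mul, norm_real, Real.norm_eq_abs, abs_of_nonneg ht.1]
    exact mul_le_of_le_one_left (norm_nonneg _) ht.2
  have h3 := norm_add₃_le (a := (st i).x0) (b := s) (c := (t : ℂ) * ((st i).x1 - (st i).x0))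
  unfold pt
  linarith

lemma kbd {φ : ℂ → ℂ} (hφ : Continuous φ) (h : ∀ i, Val φ (st i) 0) :
    ∃ B : ℝ, 0 ≤ B ∧ ∀ i, ∀ t ∈ Icc (0 : ℝ) 1, ‖kr φ (st i) 0 t‖ ≤ B := by
  choose B hB using fun i => isCompact_Icc.exists_bound_of_continuousOn (kr_cont hφ (h i))
  exact ⟨∑ i, |B i|, by positivity, fun i t ht => ((hB i t ht).trans (le_abs_self _)).trans
    (Finset.single_le_sum (f := fun i => |B i|) (fun _ _ => abs_nonneg _) (Finset.mem_univ i))⟩

/-- the normalising projection -/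
def Lam (st : ι → St) (c : ι → Fin 3 → ℂ) (f : ℂ[X]) (s : ℂ) (ρ : ℂ → ℂ) : Fin 3 → ℂ :=
  Function.invFun (fun q => PP st c (fun x => f.eval x) s (qv q)) (PP st c (fun x => f.eval x) s ρ)

theorem rn : AB.StmtRN := by
  intro f0 Z _ hd hs
  obtain ⟨ι, _, st, c, hc⟩ := exists_cyc hd hs.squarefree
  obtain ⟨R, hR, hR'⟩ := rad st
  obtain ⟨B, hB, hB'⟩ := kbd f0.continuous hc.val
  set Cc := ∑ i, ‖c i‖ with hCc
  have hC0 : 0 ≤ Cc := by positivity
  set η₀ := 1 / (6 * R ^ 2 * (Cc + 1)) with hη₀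
  have hη0 : 0 < η₀ := by positivity
  have hc' := hc
  rw [ev_cf hd] at hc'
  obtain ⟨r, hr, hr1, h1⟩ := nb hc' hη0
  obtain ⟨s₀, r', δ, n, sh, hδ, hb, hsh, hZ, hU⟩ := far st hc.ne Z hr
  have hs1 : ∀ j, ‖sh j‖ < r := fun j => mem_ball_zero_iff.1 (hb (hsh j))
  have hrad : ∀ j, ∀ x ∈ Gam st (sh j), ‖x‖ ≤ R := fun j => hR' _ ((hs1 j).le.trans hr1)
  have h2 : ∀ f, Cl f0 r f → ∀ s, ‖s‖ < r → Good st c (fun x => f.eval x) s ∧
      ∀ i, ∀ t ∈ Icc (0 : ℝ) 1, ‖kr (fun x => f.eval x) (st i) s t -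
        kr (fun x => f0.eval x) (st i) 0 t‖ ≤ η₀ := fun f hf s hs => by
    rw [ev_cf hf.2.1, ev_cf hd]
    exact h1 _ s (cf_lt hf) hs
  have hq : ∀ q (Γ : Set ℂ), ContinuousOn (qv q) Γ := fun q _ => (qv_cont q).continuous.continuousOn
  have h3 : ∀ f, Cl f0 r f → ∀ s, ‖s‖ < r → ∀ ρ, Differentiable ℂ ρ →
      PP st c (fun x => f.eval x) s ρ = PP st c (fun x => f.eval x) 0 ρ := fun f hf s hs ρ hρ =>
    shift (convex_ball 0 r) isOpen_ball f.differentiable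
      (fun s hs => (h2 f hf s (mem_ball_zero_iff.1 hs)).1) (fun _ _ x _ => hρ x)
      (mem_ball_zero_iff.2 hs) (mem_ball_self hr)
  have h4 : ∀ f, Cl f0 r f → ∀ j, Inv fun q => PP st c (fun x => f.eval x) (sh j) (qv q) := by
    intro f hf j
    refine ⟨fun p q => ?_, fun a p => ?_, fun p => ?_⟩
    · rw [qv_add, PP_add f.continuous (h2 f hf _ (hs1 j)).1.val (hq _ _) (hq _ _)]
    · rw [qv_smul, PP_smul]
    · have h5 := h2 f hf 0 (by simpa using hr)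
      have h6 := PP_est (c := c) f0.continuous f.continuous hc.val h5.1.val (hq p _)
        (by positivity) (fun x hx => qv_le hR (hR' 0 (by simp) x hx) p) h5.2
      rw [h3 f hf _ (hs1 j) _ (qv_cont p)]
      rw [show PP st c (fun x => f0.eval x) 0 (qv p) = p from hc.nm p] at h6
      refine h6.trans ?_
      have e : η₀ * (3 * R ^ 2 * ‖p‖) * (Cc + 1) = ‖p‖ / 2 := by rw [hη₀]; field_simp; ring
      rw [← e]
      exact mul_le_mul_of_nonneg_left (by linarith) (by positivity)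
  have h5 : ∀ f, Cl f0 r f → ∀ j ρ, PP st c (fun x => f.eval x) (sh j) (qv (Lam st c f (sh j) ρ)) =
      PP st c (fun x => f.eval x) (sh j) ρ := fun f hf j ρ => (h4 f hf j).app _
  have h6 : ∀ f, Cl f0 r f → ∀ j j' ρ, PP st c (fun x => f.eval x) (sh j) ρ =
      PP st c (fun x => f.eval x) (sh j') ρ → Lam st c f (sh j) ρ = Lam st c f (sh j') ρ := by
    intro f hf j j' ρ h
    refine (h4 f hf j).inj ?_
    rw [h5 f hf, h, ← h5 f hf j' ρ, h3 f hf _ (hs1 j) _ (qv_cont _),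
      h3 f hf _ (hs1 j') _ (qv_cont _)]
  set K := R + 2 * ((B + η₀) * Cc) with hK
  have hK1 : 0 ≤ 2 * ((B + η₀) * Cc) := by positivity
  have hbd : ∀ f j ρ (M : ℝ), Cl f0 r f → 0 ≤ M → (∀ x ∈ Gam st (sh j), ‖ρ x‖ ≤ M) →
      ‖Lam st c f (sh j) ρ‖ ≤ K * M := by
    intro f j ρ M hf hM hρ
    have a1 := (h4 f hf j).le (Lam st c f (sh j) ρ)
    have a2 := PP_bd (c := c) (φ := fun x => f.eval x) (B := B + η₀) hM hρ fun i t ht => by
      have b1 := (h2 f hf _ (hs1 j)).2 i t ht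
      have b2 := hB' i t ht
      have b3 := norm_le_norm_add_norm_sub' (kr (fun x => f.eval x) (st i) (sh j) t)
        (kr (fun x => f0.eval x) (st i) 0 t)
      linarith
    rw [h5 f hf] at a1
    have a3 : 0 ≤ R * M := by positivity
    rw [hK]
    nlinarith
  refine ⟨⟨r, δ, K, n, fun j => Gam st (sh j), fun f j => Lam st c f (sh j), hr, hδ, by linarith,
    fun f j hf => ⟨fun ρ σ hρ hσ => ?_, fun a ρ _ => ?_, fun ρ σ h => ?_, fun q => ?_,
      fun A B h => ?_⟩, fun j x hx => by linarith [hrad j x hx],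
    fun f j ρ M hf _ hM hρ => hbd f j ρ M hf hM hρ, hU, fun j => hZ _ (hsh j),
    fun f j j' u y hf hu => h6 f hf j j' _ ?_, fun f j j' hf => h6 f hf j j' _ ?_,
    fun f hf η hη => ?_⟩⟩
  · refine (h4 f hf j).inj ?_
    rw [(h4 f hf j).add]
    rw [h5 f hf, h5 f hf, h5 f hf, PP_add f.continuous (h2 f hf _ (hs1 j)).1.val hρ hσ]
  · refine (h4 f hf j).inj ?_
    rw [Complex.coe_smul, (h4 f hf j).smul]
    rw [h5 f hf, h5 f hf, PP_smul]
  · simp only [Lam, PP_congr h]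
  · exact (h4 f hf j).inj (h5 f hf j _)
  · have a1 := (h4 f hf j).le (Lam st c f (sh j) fun x =>
      (DA.WW derivative f A B).eval x / (A ^ 2 - f * B ^ 2).eval x)
    rw [h5 f hf, PP_pell (h2 f hf _ (hs1 j)).1 h, norm_zero, mul_zero] at a1
    exact norm_le_zero_iff.1 a1
  · obtain ⟨z, hz, hu⟩ := hu
    refine shift (convex_ball s₀ r') isOpen_ball f.differentiable
      (fun s hs => (h2 f hf s (mem_ball_zero_iff.1 (hb hs))).1) (fun s hs x hx => ?_)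
      (hsh j) (hsh j')
    refine (differentiableAt_const y).div (by fun_prop) (sub_ne_zero.2 ?_)
    rintro rfl
    linarith [hZ s hs z hz x hx]
  · rw [h3 f hf _ (hs1 j) _ (by fun_prop), h3 f hf _ (hs1 j') _ (by fun_prop)]
  · have hK0 : 0 ≤ K := by linarith
    set η₁ := η / (2 * (Cc * (1 + 3 * R ^ 2 * K)) + 1) with hη₁
    have hη1 : 0 < η₁ := by positivity
    have a1 : ∀ᶠ a in 𝓝 (cf f), ∀ j i, ∀ t ∈ Icc (0 : ℝ) 1,
        ‖kr (ev a) (st i) (sh j) t - kr (ev (cf f)) (st i) (sh j) t‖ ≤ η₁ :=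
      eventually_all.2 fun j => eventually_all.2 fun i => by
        have b1 := (h2 f hf _ (hs1 j)).1.val i
        rw [ev_cf hf.2.1] at b1
        exact ((Continuous.prodMk_left (sh j)).tendsto _).eventually
          ((kev b1 hη1).mono fun p hp t ht => (hp t ht).2)
    obtain ⟨ε', hε', a2⟩ := eventually_nhds_iff_ball.1 a1
    refine ⟨ε', hε', fun g hg hg' j ρ M hρ hM hρM => ?_⟩
    have a3 := a2 _ (mem_ball_iff_norm.2 (cf_lt hg')) j
    rw [← ev_cf hf.2.1, ← ev_cf hg.2.1] at a3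
    have vf := (h2 f hf _ (hs1 j)).1.val
    have vg := (h2 g hg _ (hs1 j)).1.val
    have a4 := PP_est (c := c) f.continuous g.continuous vf vg hρ hM hρM a3
    have a5 := hbd f j ρ M hf hM hρM
    have a6 := PP_est (c := c) (M := 3 * R ^ 2 * (K * M)) f.continuous g.continuous vf vg
      (hq (Lam st c f (sh j) ρ) _) (by positivity) (fun x hx => (qv_le hR (hrad j x hx) _).trans
        (mul_le_mul_of_nonneg_left a5 (by positivity))) a3
    have a7 := (h4 g hg j).le (Lam st c g (sh j) ρ - Lam st c f (sh j) ρ)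
    rw [(h4 g hg j).sub] at a7
    rw [h5 g hg] at a7
    rw [h5 f hf] at a6
    have a8 := norm_sub_le_norm_sub_add_norm_sub (PP st c (fun x => g.eval x) (sh j) ρ)
      (PP st c (fun x => f.eval x) (sh j) ρ)
      (PP st c (fun x => g.eval x) (sh j) (qv (Lam st c f (sh j) ρ)))
    rw [norm_sub_rev] at a6
    have e : η * M = η₁ * (2 * (Cc * (1 + 3 * R ^ 2 * K)) + 1) * M := by
      rw [hη₁]; field_simp
    have a9 : 0 ≤ η₁ * M := by positivity
    rw [e]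
    nlinarith

end

end Pool.Agent.MP_8d06cc_nt.RN
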