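import Pool.Agent.MP_8d06cc_nt.RN.ND
import Pool.Agent.MP_8d06cc_nt.AB.Defs

/-! Steps, their integrals, and the existence of a normalised system of cycles. -/

namespace Pool.Agent.MP_8d06cc_nt.RN

open Filter Topology Complex Polynomial Metric Set MeasureTheory
open AB (qv)

noncomputable section

/-- a segment with a branch of the square root -/
structure St where
  x0 : ℂ
  x1 : ℂ
  w : ℂ

/-- the shifted segment -/
def pt (a : St) (s : ℂ) (t : ℝ) : ℂ := a.x0 + s + t * (a.x1 - a.x0)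

/-- the kernel -/
def kr (φ : ℂ → ℂ) (a : St) (s : ℂ) (t : ℝ) : ℂ := (a.x1 - a.x0) / sq a.w (φ (pt a s t))

/-- the integral of `ρ dx / y` -/
def JJ (φ : ℂ → ℂ) (a : St) (s : ℂ) (ρ : ℂ → ℂ) : ℂ :=
  ∫ t in (0 : ℝ)..1, ρ (pt a s t) * kr φ a s t

/-- the branch is defined on the segment -/
def Val (φ : ℂ → ℂ) (a : St) (s : ℂ) : Prop :=
  ∀ t ∈ Icc (0 : ℝ) 1, 0 < (φ (pt a s t) / a.w ^ 2).re

/-- the support -/
def seg (a : St) (s : ℂ) : Set ℂ := pt a s '' Icc 0 1

variable {φ ρ σ : ℂ → ℂ} {a : St} {s : ℂ}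

@[simp] lemma pt_zero : pt a s 0 = a.x0 + s := by simp [pt]
@[simp] lemma pt_one : pt a s 1 = a.x1 + s := by simp [pt]; ring

lemma pt_cont : Continuous (pt a s) := by unfold pt; fun_prop

lemma pt_der (t : ℝ) : HasDerivAt (pt a s) (a.x1 - a.x0) t := by
  have := ((hasDerivAt_id (t : ℂ)).mul_const (a.x1 - a.x0)).const_add (a.x0 + s)
  rw [one_mul] at this
  exact this.comp_ofReal

lemma kr_cont (hφ : Continuous φ) (h : Val φ a s) : ContinuousOn (kr φ a s) (Icc 0 1) :=
  fun t ht => (continuousAt_const.div ((contAt_sq (h t ht)).comp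
    (f := fun t => φ (pt a s t)) (hφ.comp pt_cont).continuousAt)
      (sq_ne (h t ht))).continuousWithinAt

lemma int_cont (hφ : Continuous φ) (h : Val φ a s) (hρ : ContinuousOn ρ (seg a s)) :
    ContinuousOn (fun t => ρ (pt a s t) * kr φ a s t) (Icc 0 1) :=
  (hρ.comp pt_cont.continuousOn (mapsTo_image _ _)).mul (kr_cont hφ h)

lemma int_int (hφ : Continuous φ) (h : Val φ a s) (hρ : ContinuousOn ρ (seg a s)) :
    IntervalIntegrable (fun t => ρ (pt a s t) * kr φ a s t) volume 0 1 :=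
  ContinuousOn.intervalIntegrable (by rw [uIcc_of_le zero_le_one]; exact int_cont hφ h hρ)

lemma JJ_add (hφ : Continuous φ) (h : Val φ a s) (hρ : ContinuousOn ρ (seg a s))
    (hσ : ContinuousOn σ (seg a s)) :
    JJ φ a s (fun x => ρ x + σ x) = JJ φ a s ρ + JJ φ a s σ := by
  simp only [JJ, add_mul]
  exact intervalIntegral.integral_add (int_int hφ h hρ) (int_int hφ h hσ)

lemma JJ_mul (c : ℂ) : JJ φ a s (fun x => c * ρ x) = c * JJ φ a s ρ := by
  simp only [JJ, mul_assoc]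
  exact intervalIntegral.integral_const_mul _ _

lemma JJ_congr (h : ∀ x ∈ seg a s, ρ x = σ x) : JJ φ a s ρ = JJ φ a s σ :=
  intervalIntegral.integral_congr fun t ht => by
    rw [uIcc_of_le zero_le_one] at ht
    simp only [h _ ⟨t, ht, rfl⟩]

lemma JJ_ftc {F : ℂ → ℂ} (hφ : Continuous φ) (h : Val φ a s) (hρ : ContinuousOn ρ (seg a s))
    (hF : ∀ x ∈ seg a s, HasDerivAt F (ρ x / sq a.w (φ x)) x) :
    JJ φ a s ρ = F (a.x1 + s) - F (a.x0 + s) := by
  rw [← pt_one, ← pt_zero]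
  refine intervalIntegral.integral_eq_sub_of_hasDerivAt (f := fun t => F (pt a s t))
    (fun t ht => ?_) (int_int hφ h hρ)
  rw [uIcc_of_le zero_le_one] at ht
  exact ((hF _ ⟨t, ht, rfl⟩).comp_of_eq t (pt_der t) rfl).congr_deriv (by unfold kr; ring)

lemma qv_cont (q : Fin 3 → ℂ) : Differentiable ℂ (qv q) := by unfold qv; fun_prop

lemma qv_add (q q' : Fin 3 → ℂ) : qv (q + q') = fun x => qv q x + qv q' x := by
  funext x; simp [qv, add_mul, Finset.sum_add_distrib]

lemma qv_smul (c : ℝ) (q : Fin 3 → ℂ) : qv (c • q) = fun x => c * qv q x := by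
  funext x; simp [qv, Finset.mul_sum, mul_assoc]

/-- the real period along one step -/
def ell (hφ : Continuous φ) (h : Val φ a s) : (Fin 3 → ℂ) →ₗ[ℝ] ℝ where
  toFun q := (JJ φ a s (qv q)).re
  map_add' q q' := by
    rw [qv_add, JJ_add hφ h (qv_cont q).continuous.continuousOn
      (qv_cont q').continuous.continuousOn, add_re]
  map_smul' c q := by rw [qv_smul, JJ_mul]; simp

/-- a normalised system of cycles -/
structure Cyc {ι : Type} [Fintype ι] (φ : ℂ → ℂ) (st : ι → St) (c : ι → Fin 3 → ℂ) : Prop where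
  val : ∀ i, Val φ (st i) 0
  ne : ∀ i, (st i).x1 ≠ (st i).x0
  bd : ∀ H : ℂ → ℂ → ℝ, ∑ i, (H (st i).x1 (sq (st i).w (φ (st i).x1)) -
    H (st i).x0 (sq (st i).w (φ (st i).x0))) • c i = 0
  nm : ∀ q, ∑ i, (JJ φ (st i) 0 (qv q)).re • c i = q

lemma loc_of {f : ℂ[X]} {q : Fin 3 → ℂ} {v : ℂ → ℂ → ℝ}
    (h : ∀ a : St, Val (fun x => f.eval x) a 0 → a.x1 ≠ a.x0 →
      v a.x1 (sq a.w (f.eval a.x1)) - v a.x0 (sq a.w (f.eval a.x0)) =
        (JJ (fun x => f.eval x) a 0 (qv q)).re) :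
    Loc f (∑ j : Fin 3, C (q j) * X ^ (j : ℕ)) v := by
  intro x₀ w hw he
  have e : ∀ x, (∑ j : Fin 3, C (q j) * X ^ (j : ℕ)).eval x = qv q x := fun x => by
    simp [qv, eval_finset_sum]
  obtain ⟨r, hr, h1⟩ := eventually_nhds_iff_ball.1
    (ev_re (re_self hw) (by rw [he]; exact f.continuous.tendsto x₀))
  obtain ⟨F, hF⟩ := DifferentiableOn.isExactOn_ball (f := fun x => qv q x / sq w (f.eval x))
    (c := x₀) (r := r) fun x hx => ((qv_cont q x).div (DifferentiableAt.comp (g := sq w)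
      (f := fun x => f.eval x) x (hasDerivAt_sq (h1 x hx)).differentiableAt f.differentiableAt)
        (sq_ne (h1 x hx))).differentiableWithinAt
  refine ⟨fun x => F x - F x₀ + v x₀ w, ?_⟩
  filter_upwards [ball_mem_nhds x₀ hr] with x hx
  rw [e]
  refine ⟨((hF x hx).sub_const _).add_const _, ?_⟩
  by_cases hx0 : x = x₀
  · rw [hx0, ← he, sq_self hw]; simp
  · have h2 : seg ⟨x₀, x, w⟩ 0 ⊆ ball x₀ r := by
      rintro _ ⟨t, ht, rfl⟩
      have := (convex_ball x₀ r).add_smul_sub_mem (mem_ball_self hr) hx ht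
      simpa [pt] using this
    have h3 : Val (fun x => f.eval x) ⟨x₀, x, w⟩ 0 := fun t ht => h1 _ (h2 ⟨t, ht, rfl⟩)
    have h4 := h _ h3 hx0
    rw [JJ_ftc f.continuous h3 (qv_cont q).continuous.continuousOn fun y hy => hF y (h2 hy)] at h4
    simp only [add_zero, ← he, sq_self hw] at h4
    simp only [add_re, ofReal_re]
    linarith

theorem exists_cyc {f : ℂ[X]} (hf : f.natDegree = 8) (hs : Squarefree f) :
    ∃ (ι : Type) (_ : Fintype ι) (st : ι → St) (c : ι → Fin 3 → ℂ),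
      Cyc (fun x => f.eval x) st c := by
  classical
  let S := {a : St // Val (fun x => f.eval x) a 0 ∧ a.x1 ≠ a.x0}
  let D : (S →₀ ℝ) →ₗ[ℝ] (ℂ × ℂ →₀ ℝ) := Finsupp.linearCombination ℝ fun a : S =>
    Finsupp.single (a.1.x1, sq a.1.w (f.eval a.1.x1)) (1 : ℝ) -
      Finsupp.single (a.1.x0, sq a.1.w (f.eval a.1.x0)) 1
  let Λ : (S →₀ ℝ) →ₗ[ℝ] Module.Dual ℝ (Fin 3 → ℂ) :=
    Finsupp.linearCombination ℝ fun a : S => ell f.continuous a.2.1
  have h1 : ∀ q : Fin 3 → ℂ, (∀ z ∈ LinearMap.ker D, Λ z q = 0) → q = 0 := by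
    intro q hq
    have h2 : (Module.Dual.eval ℝ _ q).comp Λ ∈ (LinearMap.ker D).dualAnnihilator :=
      (Submodule.mem_dualAnnihilator _).2 hq
    rw [← LinearMap.range_dualMap_eq_dualAnnihilator_ker] at h2
    obtain ⟨u, hu⟩ := h2
    have h3 := nd (v := fun x y => u (Finsupp.single (x, y) 1)) (loc_of (q := q) fun a a1 a2 => by
      have := LinearMap.congr_fun hu (Finsupp.single ⟨a, a1, a2⟩ 1)
      simpa [D, Λ, ell] using this) hf hs (by
        simp only [Fin.sum_univ_three]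
        compute_degree!)
    funext j
    have h4 := congrArg (fun p : ℂ[X] => p.coeff j) h3
    fin_cases j <;> simpa [Fin.sum_univ_three, coeff_X, coeff_C] using h4
  have h2 : ∀ ψ : Module.Dual ℝ (Fin 3 → ℂ), ∃ z ∈ LinearMap.ker D, Λ z = ψ := by
    intro ψ
    have h3 := FiniteDimensional.mem_span_of_iInf_ker_le_ker
      (L := fun z : LinearMap.ker D => Λ z.1) (K := ψ) fun q hq => by
        rw [h1 q fun z hz => (Submodule.mem_iInf _).1 hq ⟨z, hz⟩]
        exact zero_mem _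
    have h4 : Submodule.span ℝ (range fun z : LinearMap.ker D => Λ z.1) ≤
        (LinearMap.ker D).map Λ := Submodule.span_le.2 (by
      rintro _ ⟨z, rfl⟩
      exact ⟨z.1, z.2, rfl⟩)
    exact h4 h3
  let b := Module.finBasis ℝ (Fin 3 → ℂ)
  choose z hz1 hz2 using fun k => h2 (b.coord k)
  let T : Finset S := Finset.univ.biUnion fun k => (z k).support
  have key : ∀ g : S → ℝ, ∑ i : T, g i.1 • ∑ k, z k i.1 • b k =
      ∑ k, Finsupp.linearCombination ℝ g (z k) • b k := by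
    intro g
    simp only [Finset.smul_sum, smul_smul]
    rw [Finset.sum_comm]
    refine Finset.sum_congr rfl fun k _ => ?_
    rw [← Finset.sum_smul, Finsupp.linearCombination_apply,
      Finsupp.sum_of_support_subset _ (s := T)
        (Finset.subset_biUnion_of_mem (fun k => (z k).support) (Finset.mem_univ k)) _
        (by simp), Finset.sum_coe_sort T fun i => g i * z k i]
    simp [mul_comm]
  refine ⟨T, inferInstance, fun i => i.1.1, fun i => ∑ k, z k i.1 • b k, fun i => i.1.2.1,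
    fun i => i.1.2.2, fun H => ?_, fun q => ?_⟩
  · rw [key fun a => H a.1.x1 (sq a.1.w (f.eval a.1.x1)) - H a.1.x0 (sq a.1.w (f.eval a.1.x0))]
    refine Finset.sum_eq_zero fun k _ => ?_
    have h3 := congrArg (Finsupp.linearCombination ℝ fun p : ℂ × ℂ => H p.1 p.2) (hz1 k)
    rw [map_zero, Finsupp.apply_linearCombination] at h3
    refine smul_eq_zero_of_left (Eq.trans ?_ h3) _
    congr 2
    funext a
    simp
  · rw [key fun a => (JJ (fun x => f.eval x) a.1 0 (qv q)).re]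
    conv_rhs => rw [← b.sum_repr q]
    refine Finset.sum_congr rfl fun k _ => ?_
    have h3 := congrArg (Module.Dual.eval ℝ _ q) (hz2 k)
    rw [Finsupp.apply_linearCombination] at h3
    exact congrArg (· • b k) h3

end

end Pool.Agent.MP_8d06cc_nt.RN
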