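import Pool.Agent.MP_8d06cc_nt.RN.Per

/-! Choice of the shifts. -/

namespace Pool.Agent.MP_8d06cc_nt.RN

open Filter Topology Complex Metric Set

noncomputable section

/-- the component orthogonal to `d` -/
def lf (d x : ℂ) : ℝ := x.im * d.re - x.re * d.im

lemma lf_le (d x : ℂ) : |lf d x| ≤ ‖x‖ * ‖d‖ := by
  have := abs_im_le_norm (x * (starRingEnd ℂ) d)
  rw [norm_mul, norm_conj] at this
  refine le_of_eq_of_le ?_ this
  congr 1
  simp only [lf, mul_im, conj_re, conj_im]; ring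

lemma lf_pt (a : St) (s u : ℂ) (t : ℝ) :
    lf (a.x1 - a.x0) (pt a s t - u) = lf (a.x1 - a.x0) (a.x0 + s - u) := by
  simp only [lf, pt, sub_im, sub_re, add_im, add_re, re_ofReal_mul, im_ofReal_mul]; ring

lemma avoid {κ : Type} [Finite κ] (α β : κ → ℝ) (h : ∀ k, α k ≠ 0 ∨ β k ≠ 0) {r : ℝ}
    (hr : 0 < r) : ∃ θ ∈ Ioo 0 r, ∀ k, α k + θ * β k ≠ 0 := by
  obtain ⟨θ, h1, h2⟩ := (Ioo_infinite hr).exists_notMem_finite
    (finite_range fun k => -α k / β k)
  refine ⟨θ, h1, fun k h0 => ?_⟩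
  by_cases hb : β k = 0
  · rw [hb, mul_zero, add_zero] at h0
    exact (h k).elim (fun h => h h0) fun h => h hb
  · exact h2 ⟨k, by simp only; rw [div_eq_iff hb]; linarith⟩

lemma posmin {κ : Type} [Finite κ] (g : κ → ℝ) (h : ∀ k, g k ≠ 0) :
    ∃ m : ℝ, 0 < m ∧ ∀ k, m ≤ |g k| := by
  have h1 : ∀ᶠ m in 𝓝[>] (0 : ℝ), ∀ k, m ≤ |g k| := eventually_all.2 fun k =>
    nhdsWithin_le_nhds (Iic_mem_nhds (abs_pos.2 (h k)))
  obtain ⟨m, h2, h3⟩ := (h1.and self_mem_nhdsWithin).exists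
  exact ⟨m, h3, h2⟩

theorem far {ι : Type} [Fintype ι] (st : ι → St) (hne : ∀ i, (st i).x1 ≠ (st i).x0)
    (Z : Finset ℂ) {r : ℝ} (hr : 0 < r) :
    ∃ (s₀ : ℂ) (r' δ : ℝ) (n : ℕ) (sh : Fin n → ℂ), 0 < δ ∧ ball s₀ r' ⊆ ball 0 r ∧
      (∀ j, sh j ∈ ball s₀ r') ∧
      (∀ s ∈ ball s₀ r', ∀ z ∈ Z, ∀ x ∈ Gam st s, 2 * δ ≤ ‖x - z‖) ∧
      ∀ U : Finset ℂ, U.card ≤ 3 → ∃ j, ∀ u ∈ U, ∀ x ∈ Gam st (sh j), δ ≤ ‖x - u‖ := by
  classical
  set d : ι → ℂ := fun i => (st i).x1 - (st i).x0 with hd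
  obtain ⟨D, hD, hD'⟩ : ∃ D : ℝ, 0 < D ∧ ∀ i, ‖d i‖ ≤ D :=
    ⟨∑ i, ‖d i‖ + 1, by positivity, fun i => (Finset.single_le_sum (f := fun i => ‖d i‖)
      (fun _ _ => norm_nonneg _) (Finset.mem_univ i)).trans (by linarith)⟩
  have hl : ∀ i x, |lf (d i) x| ≤ ‖x‖ * D := fun i x =>
    (lf_le _ _).trans (mul_le_mul_of_nonneg_left (hD' i) (norm_nonneg _))
  obtain ⟨θ, hθ, h1⟩ := avoid (fun i => -(d i).im) (fun i => (d i).re) (fun i => by
    by_contra h
    push Not at h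
    exact hne i (sub_eq_zero.1 (Complex.ext h.2 (neg_eq_zero.1 h.1)))) one_pos
  set v : ℂ := 1 + θ * I with hv
  have hv1 : ∀ i, lf (d i) v ≠ 0 := fun i h => h1 i (by
    rw [← h]; simp [lf, hv]; ring)
  have hv2 : ‖v‖ ≤ 2 := (norm_add_le _ _).trans (by
    rw [norm_one, norm_mul, norm_I, norm_real, Real.norm_eq_abs, abs_of_pos hθ.1]
    linarith [hθ.2])
  obtain ⟨β, hβ, h2⟩ := posmin _ hv1
  obtain ⟨τ, hτ, h3⟩ := avoid (fun k : ι × Z => lf (d k.1) ((st k.1).x0 - k.2))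
    (fun k => lf (d k.1) v) (fun k => Or.inr (hv1 k.1)) (r := r / 4) (by positivity)
  obtain ⟨μ, hμ, h4⟩ := posmin _ h3
  set r' := min (r / 2) (μ / (2 * D)) with hr'
  have hr0 : 0 < r' := by positivity
  set n := 3 * Fintype.card ι + 1 with hn
  have hn0 : (0 : ℝ) < n := by positivity
  set η := r' / (2 * n) with hη
  have hη0 : 0 < η := by positivity
  have hx : ∀ s u, ∀ x ∈ Gam st s, ∃ i, |lf (d i) ((st i).x0 + s - u)| ≤ ‖x - u‖ * D := by
    intro s u x hx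
    obtain ⟨i, t, -, rfl⟩ := mem_iUnion.1 hx
    exact ⟨i, by rw [hd, ← lf_pt]; exact hl i _⟩
  refine ⟨τ * v, r', min (μ / (4 * D)) (η * β / (2 * D)), n,
    fun j => τ * v + ((j : ℕ) * η : ℝ) * v, by positivity, ?_, fun j => ?_, ?_, ?_⟩
  · refine ball_subset_ball' ?_
    rw [dist_zero_right, norm_mul, norm_real, Real.norm_eq_abs, abs_of_pos hτ.1]
    have := min_le_left (r / 2) (μ / (2 * D))
    nlinarith [hτ.1, hτ.2]
  · rw [mem_ball, dist_eq_norm, add_sub_cancel_left, norm_mul, norm_real, Real.norm_eq_abs,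
      abs_of_nonneg (by positivity)]
    have a1 : ((j : ℕ) : ℝ) < n := by exact_mod_cast j.2
    have a2 : r' = n * η * 2 := by rw [hη]; field_simp
    have a3 : (0 : ℝ) ≤ (j : ℕ) * η := by positivity
    nlinarith
  · intro s hs z hz x hxs
    obtain ⟨i, t, -, rfl⟩ := mem_iUnion.1 hxs
    have a1 := hl i (pt (st i) s t - z)
    have a2 := h4 (i, ⟨z, hz⟩)
    have a3 := hl i (s - τ * v)
    rw [hd, lf_pt] at a1
    have a4 : lf (d i) ((st i).x0 - z) + τ * lf (d i) v =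
        lf (d i) ((st i).x0 + s - z) - lf (d i) (s - τ * v) := by
      simp only [lf, sub_im, sub_re, add_im, add_re, re_ofReal_mul, im_ofReal_mul]; ring
    simp only at a2
    rw [a4] at a2
    have a5 := a2.trans (abs_sub _ _)
    have a6 : ‖s - τ * v‖ * D ≤ μ / 2 := by
      have b1 : ‖s - τ * v‖ ≤ μ / (2 * D) := (mem_ball_iff_norm.1 hs).le.trans (min_le_right _ _)
      rw [le_div_iff₀ (by positivity)] at b1
      linarith
    have a7 : min (μ / (4 * D)) (η * β / (2 * D)) * (4 * D) ≤ μ :=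
      (le_div_iff₀ (by positivity)).1 (min_le_left _ _)
    refine le_of_mul_le_mul_right ?_ hD
    simp only [hd] at a3 a5
    linarith
  · intro U hU
    by_contra hc
    push Not at hc
    choose u hu x hx1 hx2 using hc
    choose i hi using fun j => hx _ (u j) _ (hx1 j)
    obtain ⟨j, j', hj, he⟩ := Fintype.exists_ne_map_eq_of_card_lt
      (fun j => ((⟨u j, hu j⟩, i j) : U × ι)) (by
        rw [Fintype.card_prod, Fintype.card_coe, Fintype.card_fin, hn]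
        exact Nat.lt_succ_of_le (Nat.mul_le_mul_right _ hU))
    have e1 : u j = u j' := congrArg (fun p : U × ι => p.1.1) he
    have e2 : i j = i j' := congrArg Prod.snd he
    have a1 := hi j
    have a2 := hi j'
    have a3 := hx2 j
    have a4 := hx2 j'
    rw [← e1, ← e2] at a2
    rw [← e1] at a4
    have a5 : (((j : ℕ) : ℝ) - (j' : ℕ)) * η * lf (d (i j)) v =
        lf (d (i j)) ((st (i j)).x0 + (τ * v + ((j : ℕ) * η : ℝ) * v) - u j) -
        lf (d (i j)) ((st (i j)).x0 + (τ * v + ((j' : ℕ) * η : ℝ) * v) - u j) := by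
      simp only [lf, sub_im, sub_re, add_im, add_re, re_ofReal_mul, im_ofReal_mul]; ring
    have a6 : (1 : ℝ) ≤ |((j : ℕ) : ℝ) - (j' : ℕ)| := by
      have : (1 : ℤ) ≤ |((j : ℕ) : ℤ) - (j' : ℕ)| :=
        Int.one_le_abs (sub_ne_zero.2 fun h => hj (Fin.ext (by exact_mod_cast h)))
      exact_mod_cast this
    have a7 : 1 * η * β ≤ |(((j : ℕ) : ℝ) - (j' : ℕ)) * η * lf (d (i j)) v| := by
      rw [abs_mul, abs_mul, abs_of_pos hη0]
      exact mul_le_mul (mul_le_mul_of_nonneg_right a6 hη0.le) (h2 _) hβ.le (by positivity)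
    rw [a5] at a7
    have a8 := a7.trans (abs_sub _ _)
    have a9 : min (μ / (4 * D)) (η * β / (2 * D)) * (2 * D) ≤ η * β :=
      (le_div_iff₀ (by positivity)).1 (min_le_right _ _)
    have b1 := mul_lt_mul_of_pos_right a3 hD
    have b2 := mul_lt_mul_of_pos_right a4 hD
    linarith

end

end Pool.Agent.MP_8d06cc_nt.RN
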