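import Pool.Agent.MP_8d06cc_nt.RN.Sq

/-! A holomorphic differential whose integral has a single valued real part vanishes. -/

namespace Pool.Agent.MP_8d06cc_nt.RN

open Filter Topology Complex Polynomial Metric Set

noncomputable section

/-- `v` is locally the real part of a primitive of `q dx / y` -/
def Loc (f q : ℂ[X]) (v : ℂ → ℂ → ℝ) : Prop := ∀ x₀ w : ℂ, w ≠ 0 → w ^ 2 = f.eval x₀ →
  ∃ F : ℂ → ℂ, ∀ᶠ x in 𝓝 x₀, HasDerivAt F (q.eval x / sq w (f.eval x)) x ∧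
    v x (sq w (f.eval x)) = (F x).re

lemma Loc.odd {f q : ℂ[X]} {v : ℂ → ℂ → ℝ} (h : Loc f q v) :
    Loc f q fun x y => (v x y - v x (-y)) / 2 := by
  intro x₀ w hw he
  obtain ⟨F, hF⟩ := h x₀ w hw he
  obtain ⟨G, hG⟩ := h x₀ (-w) (neg_ne_zero.2 hw) (by rw [neg_sq, he])
  refine ⟨fun x => (F x - G x) / 2, ?_⟩
  filter_upwards [hF, hG] with x h1 h2
  rw [sq_neg] at h2
  refine ⟨((h1.1.sub h2.1).div_const 2).congr_deriv (by rw [div_neg]; ring), ?_⟩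
  rw [h1.2, h2.2]
  simp

lemma maxp {G ψ : ℂ → ℂ} {c : ℝ} {z : ℂ} (hG : ∀ᶠ τ in 𝓝 z, HasDerivAt G (ψ τ) τ)
    (hm : ∀ᶠ τ in 𝓝[≠] z, |(G τ).re + c| ≤ |(G z).re + c|) : ∀ᶠ τ in 𝓝 z, ψ τ = 0 := by
  have hm' : ∀ᶠ τ in 𝓝 z, |(G τ).re + c| ≤ |(G z).re + c| := by
    rw [← nhdsNE_sup_pure, eventually_sup]
    exact ⟨hm, eventually_pure.2 (le_refl _)⟩
  obtain ⟨e, he, h1⟩ : ∃ e : ℂ, e ≠ 0 ∧ ∀ᶠ τ in 𝓝 z, (e * G τ).re ≤ (e * G z).re := by
    rcases le_total 0 ((G z).re + c) with h | h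
    · refine ⟨1, one_ne_zero, hm'.mono fun τ hτ => ?_⟩
      rw [abs_of_nonneg h] at hτ
      have := (abs_le.1 hτ).2
      simp only [one_mul]; linarith
    · refine ⟨-1, by simp, hm'.mono fun τ hτ => ?_⟩
      rw [abs_of_nonpos h] at hτ
      have := (abs_le.1 hτ).1
      simp only [neg_mul, one_mul, neg_re]; linarith
  have hd : ∀ᶠ τ in 𝓝 z, HasDerivAt (fun τ => cexp (e * G τ)) (cexp (e * G τ) * (e * ψ τ)) τ :=
    hG.mono fun τ h => (h.const_mul e).cexp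
  have h2 := eventually_eq_of_isLocalMax_norm (hd.mono fun τ h => h.differentiableAt)
    (h1.mono fun τ hτ => by
      simp only [Function.comp, norm_exp]; exact Real.exp_le_exp.2 hτ)
  filter_upwards [hd, h2.eventually_nhds] with τ h3 h4
  have h5 := (h3.congr_of_eventuallyEq (EventuallyEq.symm h4)).unique (hasDerivAt_const τ _)
  exact (mul_eq_zero.1 ((mul_eq_zero.1 h5).resolve_left (exp_ne_zero _))).resolve_left he

lemma punct {r : ℝ} (hr : 0 < r) : IsPreconnected (ball (0 : ℂ) r \ {0}) := by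
  have e : ball (0 : ℂ) r \ {0} = cexp '' {z | z.re < Real.log r} := by
    ext τ
    simp only [mem_diff, mem_ball_zero_iff, mem_singleton_iff, mem_image, mem_setOf_eq]
    constructor
    · rintro ⟨h1, h2⟩
      exact ⟨log τ, by rw [log_re]; exact Real.log_lt_log (norm_pos_iff.2 h2) h1, exp_log h2⟩
    · rintro ⟨z, hz, rfl⟩
      exact ⟨by rw [norm_exp]; exact (Real.lt_log_iff_exp_lt hr).1 hz, exp_ne_zero _⟩
  rw [e]
  exact (convex_halfSpace_re_lt _).isPreconnected.image _ continuous_exp.continuousOn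

lemma chart {f q : ℂ[X]} {v : ℂ → ℂ → ℝ} (h : Loc f q v) {ξ ξ' η ψ : ℂ → ℂ}
    (hψ : ∀ᶠ τ in 𝓝 (0 : ℂ), DifferentiableAt ℂ ψ τ)
    (h1 : ∀ᶠ τ in 𝓝[≠] (0 : ℂ), HasDerivAt ξ (ξ' τ) τ ∧ ContinuousAt η τ ∧ η τ ≠ 0 ∧
      η τ ^ 2 = f.eval (ξ τ) ∧ ψ τ = q.eval (ξ τ) / η τ * ξ' τ) :
    ∃ (G : ℂ → ℂ) (c : ℝ), (∀ᶠ τ in 𝓝 (0 : ℂ), HasDerivAt G (ψ τ) τ) ∧
      ∀ᶠ τ in 𝓝[≠] (0 : ℂ), v (ξ τ) (η τ) = (G τ).re + c := by
  rw [eventually_nhdsWithin_iff] at h1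
  obtain ⟨r, hr, h2⟩ := eventually_nhds_iff_ball.1 (hψ.and h1)
  obtain ⟨G, hG⟩ := DifferentiableOn.isExactOn_ball (f := ψ) (c := 0) (r := r)
    fun τ hτ => (h2 τ hτ).1.differentiableWithinAt
  have ho : IsOpen (ball (0 : ℂ) r \ {0}) := isOpen_ball.sdiff isClosed_singleton
  have key : ∀ τ ∈ ball (0 : ℂ) r \ {0},
      HasFDerivAt (fun τ => v (ξ τ) (η τ) - (G τ).re) (0 : ℂ →L[ℝ] ℝ) τ := by
    intro τ hτ
    obtain ⟨a1, a2, a3, a4, a5⟩ := (h2 τ hτ.1).2 hτ.2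
    obtain ⟨F, hF⟩ := h (ξ τ) (η τ) a3 a4
    have hc : Tendsto (fun t => f.eval (ξ t)) (𝓝 τ) (𝓝 (η τ ^ 2)) := by
      rw [a4]; exact (f.continuous.tendsto _).comp a1.continuousAt
    have b1 : ∀ᶠ t in 𝓝 τ, η t = sq (η τ) (f.eval (ξ t)) := by
      refine root_eq a3 a2 ?_ ?_
      · have := (contAt_sq (re_self a3)).tendsto.comp hc
        rwa [sq_self a3] at this
      · filter_upwards [ho.mem_nhds hτ] with t ht
        rw [sq_sq a3, ((h2 t ht.1).2 ht.2).2.2.2.1]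
    have b2 := (hF.self_of_nhds.1.comp τ a1).sub (hG τ hτ.1)
    rw [← a4, sq_self a3, ← a5, sub_self] at b2
    have b3 := reCLM.hasFDerivAt.comp τ (b2.hasFDerivAt.restrictScalars ℝ)
    refine (b3.congr_of_eventuallyEq ?_).congr_fderiv (by ext <;> simp)
    filter_upwards [b1, a1.continuousAt.eventually hF] with t h3 h4
    rw [h3, h4.2]
    simp
  obtain ⟨c, hc⟩ := ho.exists_is_const_of_fderiv_eq_zero (𝕜 := ℝ) (punct hr)
    (fun τ hτ => (key τ hτ).differentiableAt.differentiableWithinAt)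
    fun τ hτ => (key τ hτ).fderiv
  refine ⟨G, c, mem_of_superset (ball_mem_nhds _ hr) hG, ?_⟩
  filter_upwards [self_mem_nhdsWithin, nhdsWithin_le_nhds (ball_mem_nhds (0 : ℂ) hr)] with τ h3 h4
  linear_combination hc τ ⟨h4, h3⟩

/-- the behaviour of `g` along the filter `l` -/
def Lim (g : ℂ → ℝ) (q : ℂ[X]) (l : Filter ℂ) (L : ℝ) : Prop :=
  Tendsto g l (𝓝 L) ∧ ((∀ᶠ x in l, g x ≤ L) → q = 0)

lemma q_zero {q : ℂ[X]} {l : Filter ℂ} [l.NeBot] (hl : l ≤ cofinite)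
    (h : ∀ᶠ x in l, q.eval x = 0) : q = 0 := by
  by_contra hq
  obtain ⟨x, h1, h2⟩ := (h.and (hl (eventually_cofinite_not_isRoot hq))).exists
  exact h2 h1

lemma chart2 {f q : ℂ[X]} {v : ℂ → ℂ → ℝ} (h : Loc f q v) {g : ℂ → ℝ}
    (hg : ∀ x y, y ^ 2 = f.eval x → g x = |v x y|) {ξ ξ' η ψ σ : ℂ → ℂ}
    {l : Filter ℂ} [l.NeBot] (hl : l ≤ cofinite) (t1 : Tendsto ξ (𝓝[≠] 0) l)
    (t2 : Tendsto σ l (𝓝[≠] 0)) (t3 : ∀ᶠ x in l, ξ (σ x) = x)
    (hψ : ∀ᶠ τ in 𝓝 (0 : ℂ), DifferentiableAt ℂ ψ τ)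
    (h0 : ∀ᶠ τ in 𝓝[≠] (0 : ℂ), ξ' τ ≠ 0)
    (h1 : ∀ᶠ τ in 𝓝[≠] (0 : ℂ), HasDerivAt ξ (ξ' τ) τ ∧ ContinuousAt η τ ∧ η τ ≠ 0 ∧
      η τ ^ 2 = f.eval (ξ τ) ∧ ψ τ = q.eval (ξ τ) / η τ * ξ' τ) : ∃ L, Lim g q l L := by
  obtain ⟨G, c, hG, hc⟩ := chart h hψ h1
  have e : ∀ᶠ τ in 𝓝[≠] (0 : ℂ), g (ξ τ) = |(G τ).re + c| := by
    filter_upwards [h1, hc] with τ a b
    rw [hg _ _ a.2.2.2.1, b]
  refine ⟨|(G 0).re + c|, ?_, fun hm => ?_⟩
  · have c1 : Tendsto (fun τ => |(G τ).re + c|) (𝓝 0) (𝓝 |(G 0).re + c|) :=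
      (((continuous_re.tendsto _).comp hG.self_of_nhds.continuousAt).add_const c).abs
    refine (c1.comp (t2.mono_right nhdsWithin_le_nhds)).congr' ?_
    filter_upwards [t2.eventually e, t3] with x a b
    rw [b] at a
    exact a.symm
  · have m1 : ∀ᶠ τ in 𝓝[≠] (0 : ℂ), |(G τ).re + c| ≤ |(G 0).re + c| := by
      filter_upwards [t1.eventually hm, e] with τ a b
      rwa [b] at a
    have m2 : ∀ᶠ τ in 𝓝[≠] (0 : ℂ), q.eval (ξ τ) = 0 := by
      filter_upwards [nhdsWithin_le_nhds (maxp hG m1), h0, h1] with τ a b d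
      rw [d.2.2.2.2] at a
      exact (div_eq_zero_iff.1 ((mul_eq_zero.1 a).resolve_right b)).resolve_right d.2.2.1
    refine q_zero hl ?_
    filter_upwards [t2.eventually m2, t3] with x a b
    rwa [b] at a

lemma exists_root {z : ℂ} (hz : z ≠ 0) : ∃ w : ℂ, w ≠ 0 ∧ w ^ 2 = z :=
  ⟨z ^ (2⁻¹ : ℂ), fun h => hz (by rw [← cpow_ofNat_inv_pow z 2, h]; ring), cpow_ofNat_inv_pow z 2⟩

lemma lim_reg {f q : ℂ[X]} {v : ℂ → ℂ → ℝ} (h : Loc f q v) {g : ℂ → ℝ}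
    (hg : ∀ x y, y ^ 2 = f.eval x → g x = |v x y|) {e : ℂ} (he : f.eval e ≠ 0) :
    Lim g q (𝓝[≠] e) (g e) := by
  obtain ⟨w, hw, hw2⟩ := exists_root he
  obtain ⟨F, hF⟩ := h e w hw hw2
  have e1 : ∀ᶠ x in 𝓝 e, g x = |(F x).re + 0| :=
    hF.mono fun x hx => by rw [hg x _ (sq_sq hw _), hx.2, add_zero]
  have c1 : Tendsto (fun τ => |(F τ).re + 0|) (𝓝 e) (𝓝 |(F e).re + 0|) :=
    (((continuous_re.tendsto _).comp hF.self_of_nhds.1.continuousAt).add_const 0).abs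
  rw [e1.self_of_nhds]
  refine ⟨(c1.congr' (EventuallyEq.symm e1)).mono_left nhdsWithin_le_nhds, fun hm => ?_⟩
  have m1 : ∀ᶠ τ in 𝓝[≠] e, |(F τ).re + 0| ≤ |(F e).re + 0| := by
    filter_upwards [hm, nhdsWithin_le_nhds e1] with τ a b
    rwa [b] at a
  have m2 := maxp (hF.mono fun x hx => hx.1) m1
  have m3 := ev_re (re_self hw) (by rw [hw2]; exact f.continuous.tendsto e)
  refine q_zero (nhdsNE_le_cofinite e) (nhdsWithin_le_nhds ?_)
  filter_upwards [m2, m3] with x a b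
  exact (div_eq_zero_iff.1 a).resolve_right (sq_ne b)

lemma lim_root {f q : ℂ[X]} {v : ℂ → ℂ → ℝ} (h : Loc f q v) {g : ℂ → ℝ}
    (hg : ∀ x y, y ^ 2 = f.eval x → g x = |v x y|) {e : ℂ} {k : ℂ[X]}
    (hk : f = (X - C e) * k) (he : k.eval e ≠ 0) : ∃ L, Lim g q (𝓝[≠] e) L := by
  obtain ⟨w, hw, hw2⟩ := exists_root he
  have c0 : Continuous fun τ : ℂ => k.eval (e + τ ^ 2) := by fun_prop
  have m3 : ∀ᶠ τ in 𝓝 (0 : ℂ), 0 < (k.eval (e + τ ^ 2) / w ^ 2).re :=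
    ev_re (re_self hw) (c0.tendsto' 0 _ (by simp [hw2]))
  have d0 : ∀ (p : ℂ[X]) (τ : ℂ), DifferentiableAt ℂ (fun τ : ℂ => p.eval (e + τ ^ 2)) τ :=
    fun p τ => p.differentiableAt.comp τ (by fun_prop)
  refine chart2 h hg (ξ := fun τ => e + τ ^ 2) (ξ' := fun τ => 2 * τ)
    (η := fun τ => τ * sq w (k.eval (e + τ ^ 2)))
    (ψ := fun τ => 2 * q.eval (e + τ ^ 2) / sq w (k.eval (e + τ ^ 2)))
    (σ := fun x => (x - e) ^ (2⁻¹ : ℂ)) (nhdsNE_le_cofinite e) ?_ ?_ ?_ ?_ ?_ ?_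
  · refine tendsto_nhdsWithin_iff.2 ⟨tendsto_nhdsWithin_of_tendsto_nhds
      (Continuous.tendsto' (by fun_prop) _ _ (by simp)), ?_⟩
    filter_upwards [self_mem_nhdsWithin] with τ hτ
    simpa using hτ
  · refine tendsto_nhdsWithin_iff.2 ⟨tendsto_nhdsWithin_of_tendsto_nhds ?_, ?_⟩
    · have a1 := (continuousAt_cpow_const_of_re_pos (z := 0) (w := 2⁻¹) (by simp)
        (by norm_num)).tendsto
      rw [zero_cpow (by norm_num)] at a1
      exact a1.comp (Continuous.tendsto' (by fun_prop) _ _ (by simp))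
    · filter_upwards [self_mem_nhdsWithin] with x hx
      intro h0
      have a2 := cpow_ofNat_inv_pow (x - e) 2
      rw [mem_singleton_iff.1 h0] at a2
      exact hx (sub_eq_zero.1 (by rw [← a2]; ring))
  · exact Eventually.of_forall fun x => by simp only [cpow_ofNat_inv_pow]; ring
  · exact m3.mono fun τ hτ => ((d0 q τ).const_mul 2).div
      (DifferentiableAt.comp (g := sq w) (f := fun τ : ℂ => k.eval (e + τ ^ 2)) τ
        (hasDerivAt_sq hτ).differentiableAt (d0 k τ)) (sq_ne hτ)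
  · filter_upwards [self_mem_nhdsWithin] with τ hτ
    exact mul_ne_zero two_ne_zero hτ
  · filter_upwards [self_mem_nhdsWithin, nhdsWithin_le_nhds m3] with τ hτ a
    have hτ' : τ ≠ 0 := hτ
    have a1 := sq_ne a
    refine ⟨by simpa using (hasDerivAt_pow 2 τ).const_add e,
      continuousAt_id.mul ((contAt_sq a).comp (f := fun τ : ℂ => k.eval (e + τ ^ 2))
        c0.continuousAt), mul_ne_zero hτ a1, ?_, by field_simp⟩
    rw [mul_pow, sq_sq hw, hk]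
    simp

lemma lim_inf {f q : ℂ[X]} {v : ℂ → ℂ → ℝ} (h : Loc f q v) {g : ℂ → ℝ}
    (hg : ∀ x y, y ^ 2 = f.eval x → g x = |v x y|) (hf : f.natDegree = 8) (hq : q.natDegree ≤ 2) :
    ∃ L, Lim g q (Bornology.cobounded ℂ) L := by
  have he : f.coeff 8 ≠ 0 := by
    rw [← hf]
    exact leadingCoeff_ne_zero.2 fun h0 => by simp [h0] at hf
  obtain ⟨w, hw, hw2⟩ := exists_root he
  set k : ℂ → ℂ := fun τ => ∑ i ∈ Finset.range 9, f.coeff i * τ ^ (8 - i) with hk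
  set p : ℂ → ℂ := fun τ => ∑ i ∈ Finset.range 3, q.coeff i * τ ^ (2 - i) with hp
  have dk : Differentiable ℂ k := by rw [hk]; fun_prop
  have dp : Differentiable ℂ p := by rw [hp]; fun_prop
  have m3 : ∀ᶠ τ in 𝓝 (0 : ℂ), 0 < (k τ / w ^ 2).re :=
    ev_re (re_self hw) (dk.continuous.tendsto' 0 _ (by simp [hw2, hk, Finset.sum_range_succ]))
  refine chart2 h hg (ξ := fun τ => τ⁻¹) (ξ' := fun τ => -(τ ^ 2)⁻¹)
    (η := fun τ => τ⁻¹ ^ 4 * sq w (k τ)) (ψ := fun τ => -p τ / sq w (k τ))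
    (σ := fun x => x⁻¹) (Bornology.le_cofinite ℂ) tendsto_inv₀_nhdsNE_zero
    tendsto_inv₀_cobounded' (Eventually.of_forall fun x => inv_inv x) ?_ ?_ ?_
  · exact m3.mono fun τ hτ => (dp τ).neg.div
      ((hasDerivAt_sq hτ).differentiableAt.comp τ (dk τ)) (sq_ne hτ)
  · filter_upwards [self_mem_nhdsWithin] with τ hτ
    exact neg_ne_zero.2 (inv_ne_zero (pow_ne_zero _ hτ))
  · filter_upwards [self_mem_nhdsWithin, nhdsWithin_le_nhds m3] with τ hτ a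
    have hτ' : τ ≠ 0 := hτ
    have a1 := sq_ne a
    refine ⟨hasDerivAt_inv hτ', ((continuousAt_inv₀ hτ').pow 4).mul
      ((contAt_sq a).comp dk.continuous.continuousAt),
      mul_ne_zero (pow_ne_zero _ (inv_ne_zero hτ')) a1, ?_, ?_⟩
    · rw [mul_pow, sq_sq hw, eval_eq_sum_range' (n := 9) (by omega)]
      simp only [hk, Finset.sum_range_succ, Finset.sum_range_zero]
      field_simp
      ring
    · rw [eval_eq_sum_range' (n := 3) (by omega)]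
      simp only [hp, Finset.sum_range_succ, Finset.sum_range_zero]
      field_simp
      ring

theorem nd {f q : ℂ[X]} {v : ℂ → ℂ → ℝ} (h : Loc f q v) (hf : f.natDegree = 8)
    (hs : Squarefree f) (hq : q.natDegree ≤ 2) : q = 0 := by
  have h' := h.odd
  set u : ℂ → ℂ → ℝ := fun x y => (v x y - v x (-y)) / 2 with hu
  set g : ℂ → ℝ := fun x => |u x (f.eval x ^ (2⁻¹ : ℂ))| with hg0
  have hg : ∀ x y, y ^ 2 = f.eval x → g x = |u x y| := by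
    intro x y hy
    rcases sq_eq_sq_iff_eq_or_eq_neg.1 ((cpow_ofNat_inv_pow (f.eval x) 2).trans hy.symm) with e | e
    · simp only [hg0, e]
    · simp only [hg0, e, hu, neg_neg]
      rw [← abs_neg]; congr 1; ring
  have hL : ∀ e : ℂ, ∃ L, Lim g q (𝓝[≠] e) L ∧ (f.eval e ≠ 0 → L = g e) := by
    intro e
    by_cases he : f.eval e = 0
    · obtain ⟨k, hk⟩ := dvd_iff_isRoot.2 he
      have hk0 : k.eval e ≠ 0 := fun h0 => by
        obtain ⟨k', hk'⟩ := dvd_iff_isRoot.2 h0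
        exact not_isUnit_X_sub_C e (hs _ ⟨k', by rw [hk, hk', mul_assoc]⟩)
      obtain ⟨L, hL⟩ := lim_root h' hg hk hk0
      exact ⟨L, hL, fun h0 => absurd he h0⟩
    · exact ⟨_, lim_reg h' hg he, fun _ => rfl⟩
  choose L hL1 hL2 using hL
  have hf0 : ∀ᶠ x in cofinite, L x = g x :=
    (eventually_cofinite_not_isRoot hs.ne_zero).mono fun x hx => hL2 x hx
  have hc : Continuous L := continuous_iff_continuousAt.2 fun e =>
    continuousAt_iff_punctured_nhds.2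
      ((hL1 e).1.congr' (EventuallyEq.symm (nhdsNE_le_cofinite e hf0)))
  obtain ⟨M, hM1, hM2⟩ := lim_inf h' hg hf hq
  have hf1 : ∀ᶠ x in Bornology.cobounded ℂ, L x = g x := Bornology.le_cofinite ℂ hf0
  by_cases hM : ∀ x, L x ≤ M
  · exact hM2 (hf1.mono fun x hx => hx ▸ hM x)
  · obtain ⟨x₀, hx₀⟩ := not_forall.1 hM
    obtain ⟨e, he⟩ := hc.exists_forall_ge' x₀ (by
      rw [← cobounded_eq_cocompact]
      filter_upwards [hf1, hM1.eventually (gt_mem_nhds (not_le.1 hx₀))] with x a b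
      rw [a]; exact b.le)
    refine (hL1 e).2 ?_
    filter_upwards [nhdsNE_le_cofinite e hf0] with x hx
    rw [← hx]; exact he x

end

end Pool.Agent.MP_8d06cc_nt.RN
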