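import Pool.Agent.MP_8d06cc_nt.RN.Cyc

/-! Real periods over a system of cycles. -/

namespace Pool.Agent.MP_8d06cc_nt.RN

open Filter Topology Complex Polynomial Metric Set MeasureTheory
open AB (qv)
open DA (WW)

noncomputable section

variable {ι : Type} [Fintype ι] {st : ι → St} {c : ι → Fin 3 → ℂ} {φ φ' ρ σ : ℂ → ℂ} {s s' : ℂ}
  {a : St}

/-- the vector of real periods -/
def PP (st : ι → St) (c : ι → Fin 3 → ℂ) (φ : ℂ → ℂ) (s : ℂ) (ρ : ℂ → ℂ) : Fin 3 → ℂ :=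
  ∑ i, (JJ φ (st i) s ρ).re • c i

/-- the support of the system -/
def Gam (st : ι → St) (s : ℂ) : Set ℂ := ⋃ i, seg (st i) s

/-- the shifted steps are valid and form cycles -/
structure Good (st : ι → St) (c : ι → Fin 3 → ℂ) (φ : ℂ → ℂ) (s : ℂ) : Prop where
  val : ∀ i, Val φ (st i) s
  bd : ∀ H : ℂ → ℂ → ℝ, ∑ i, (H ((st i).x1 + s) (sq (st i).w (φ ((st i).x1 + s))) -
    H ((st i).x0 + s) (sq (st i).w (φ ((st i).x0 + s)))) • c i = 0

omit [Fintype ι] in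
lemma seg_sub (i : ι) : seg (st i) s ⊆ Gam st s := subset_iUnion (fun i => seg (st i) s) i

lemma PP_add (hφ : Continuous φ) (h : ∀ i, Val φ (st i) s) (hρ : ContinuousOn ρ (Gam st s))
    (hσ : ContinuousOn σ (Gam st s)) :
    PP st c φ s (fun x => ρ x + σ x) = PP st c φ s ρ + PP st c φ s σ := by
  rw [PP, PP, PP, ← Finset.sum_add_distrib]
  refine Finset.sum_congr rfl fun i _ => ?_
  rw [JJ_add hφ (h i) (hρ.mono (seg_sub i)) (hσ.mono (seg_sub i)), add_re, add_smul]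

lemma PP_smul (r : ℝ) : PP st c φ s (fun x => r * ρ x) = r • PP st c φ s ρ := by
  rw [PP, PP, Finset.smul_sum]
  refine Finset.sum_congr rfl fun i _ => ?_
  rw [JJ_mul, re_ofReal_mul, mul_smul]

lemma PP_congr (h : ∀ x ∈ Gam st s, ρ x = σ x) : PP st c φ s ρ = PP st c φ s σ :=
  Finset.sum_congr rfl fun i _ => by rw [JJ_congr fun x hx => h x (seg_sub i hx)]

lemma sum_le {z : ι → ℂ} {B : ℝ} (h : ∀ i, ‖z i‖ ≤ B) :
    ‖∑ i, (z i).re • c i‖ ≤ B * ∑ i, ‖c i‖ := by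
  rw [Finset.mul_sum]
  refine norm_sum_le_of_le _ fun i _ => ?_
  rw [norm_smul]
  exact mul_le_mul_of_nonneg_right ((abs_re_le_norm _).trans (h i)) (norm_nonneg _)

lemma int_le {k : ℝ → ℂ} {M B : ℝ} (hM : 0 ≤ M) (hρ : ∀ x ∈ seg a s, ‖ρ x‖ ≤ M)
    (hk : ∀ t ∈ Icc (0 : ℝ) 1, ‖k t‖ ≤ B) : ‖∫ t in (0 : ℝ)..1, ρ (pt a s t) * k t‖ ≤ B * M := by
  have := intervalIntegral.norm_integral_le_of_norm_le_const (a := 0) (b := 1) (C := B * M)
    (f := fun t => ρ (pt a s t) * k t) fun t ht => by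
      rw [uIoc_of_le zero_le_one] at ht
      have ht' := Ioc_subset_Icc_self ht
      rw [norm_mul, mul_comm B]
      exact mul_le_mul (hρ _ ⟨t, ht', rfl⟩) (hk t ht') (norm_nonneg _) hM
  simpa using this

lemma PP_bd {M B : ℝ} (hM : 0 ≤ M) (hρ : ∀ x ∈ Gam st s, ‖ρ x‖ ≤ M)
    (hk : ∀ i, ∀ t ∈ Icc (0 : ℝ) 1, ‖kr φ (st i) s t‖ ≤ B) :
    ‖PP st c φ s ρ‖ ≤ B * M * ∑ i, ‖c i‖ :=
  sum_le fun i => int_le hM (fun x hx => hρ x (seg_sub i hx)) (hk i)

lemma PP_est {M η : ℝ} (hφ : Continuous φ) (hφ' : Continuous φ') (h : ∀ i, Val φ (st i) s)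
    (h' : ∀ i, Val φ' (st i) s) (hc : ContinuousOn ρ (Gam st s)) (hM : 0 ≤ M)
    (hρ : ∀ x ∈ Gam st s, ‖ρ x‖ ≤ M)
    (hk : ∀ i, ∀ t ∈ Icc (0 : ℝ) 1, ‖kr φ' (st i) s t - kr φ (st i) s t‖ ≤ η) :
    ‖PP st c φ' s ρ - PP st c φ s ρ‖ ≤ η * M * ∑ i, ‖c i‖ := by
  rw [PP, PP, ← Finset.sum_sub_distrib]
  simp only [← sub_smul, ← sub_re]
  refine sum_le fun i => ?_
  rw [JJ, JJ, ← intervalIntegral.integral_sub (int_int hφ' (h' i) (hc.mono (seg_sub i)))
    (int_int hφ (h i) (hc.mono (seg_sub i)))]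
  simp only [← mul_sub]
  exact int_le hM (fun x hx => hρ x (seg_sub i hx)) (hk i)

lemma prim {B : Set ℂ} (hB : Convex ℝ B) (ho : IsOpen B) {g : ℂ → ℂ}
    (hg : ∀ s ∈ B, ∀ x ∈ seg a s, DifferentiableAt ℂ g x) :
    ∃ F : ℂ → ℂ, ∀ s ∈ B, ∀ x ∈ seg a s, HasDerivAt F (g x) x := by
  set U : Set ℂ := ⋃ t ∈ Icc (0 : ℝ) 1, (fun x => x - pt a 0 t) ⁻¹' B with hU
  have h1 : IsOpen U := isOpen_biUnion fun t _ => ho.preimage (by fun_prop)
  have h2 : ∀ x, x ∈ U ↔ ∃ s ∈ B, x ∈ seg a s := fun x => by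
    simp only [hU, mem_iUnion, mem_preimage]
    constructor
    · rintro ⟨t, ht, h⟩
      exact ⟨_, h, t, ht, by simp only [pt]; ring⟩
    · rintro ⟨s, hs, t, ht, rfl⟩
      exact ⟨t, ht, by rwa [show pt a s t - pt a 0 t = s by simp only [pt]; ring]⟩
  have h3 : Convex ℝ U := by
    intro x hx y hy p q hp hq hpq
    obtain ⟨s, hs, t, ht, rfl⟩ := (h2 x).1 hx
    obtain ⟨s', hs', t', ht', rfl⟩ := (h2 y).1 hy
    refine (h2 _).2 ⟨_, hB hs hs' hp hq hpq, _, convex_Icc 0 1 ht ht' hp hq hpq, ?_⟩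
    have e : (p : ℂ) + q = 1 := by exact_mod_cast hpq
    simp only [pt, real_smul, smul_eq_mul]
    push_cast
    linear_combination (-a.x0) * e
  obtain ⟨F, hF⟩ := h3.exists_forall_hasDerivWithinAt (f := g) (𝕜 := ℂ) fun x hx => by
    obtain ⟨s, hs, h⟩ := (h2 x).1 hx
    exact (hg s hs x h).differentiableWithinAt
  exact ⟨F, fun s hs x hx => (hF x ((h2 x).2 ⟨s, hs, hx⟩)).hasDerivAt
    (h1.mem_nhds ((h2 x).2 ⟨s, hs, hx⟩))⟩

lemma der_re {p : ℝ → ℂ} {p' : ℂ} {t : ℝ} (h : HasDerivAt p p' t) :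
    HasDerivAt (fun t => (p t).re) p'.re t :=
  reCLM.hasFDerivAt.comp_hasDerivAt t h

theorem shift {B : Set ℂ} (hB : Convex ℝ B) (ho : IsOpen B) (hφ : Differentiable ℂ φ)
    (hG : ∀ s ∈ B, Good st c φ s) (hρ : ∀ s ∈ B, ∀ x ∈ Gam st s, DifferentiableAt ℂ ρ x)
    (hs : s ∈ B) (hs' : s' ∈ B) : PP st c φ s ρ = PP st c φ s' ρ := by
  have h1 : ∀ i, ∃ F : ℂ → ℂ, ∀ s ∈ B, ∀ x ∈ seg (st i) s,
      HasDerivAt F (ρ x / sq (st i).w (φ x)) x := fun i => prim hB ho fun s hs x hx => by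
    obtain ⟨t, ht, rfl⟩ := id hx
    have := (hG s hs).val i t ht
    exact (hρ s hs _ (seg_sub i hx)).div (DifferentiableAt.comp (g := sq (st i).w) (f := φ) _
      (hasDerivAt_sq this).differentiableAt (hφ _)) (sq_ne this)
  choose F hF using h1
  have h2 : ∀ s ∈ B, PP st c φ s ρ =
      ∑ i, ((F i ((st i).x1 + s)).re - (F i ((st i).x0 + s)).re) • c i := fun s hs =>
    Finset.sum_congr rfl fun i _ => by
      rw [JJ_ftc hφ.continuous ((hG s hs).val i)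
        (fun x hx => (hρ s hs x (seg_sub i hx)).continuousAt.continuousWithinAt) (hF i s hs),
        sub_re]
  have h3 : ∀ τ ∈ Icc (0 : ℝ) 1, HasDerivAt (fun τ : ℝ => ∑ i,
      ((F i ((st i).x1 + (s + τ * (s' - s)))).re - (F i ((st i).x0 + (s + τ * (s' - s)))).re) • c i)
      0 τ := by
    intro τ hτ
    have hm : s + τ * (s' - s) ∈ B := hB.add_smul_sub_mem hs hs' hτ
    have d0 : ∀ y : ℂ, HasDerivAt (fun τ : ℝ => y + (s + τ * (s' - s))) (s' - s) τ := fun y => by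
      have := (((hasDerivAt_id (τ : ℂ)).mul_const (s' - s)).const_add s).const_add y
      rw [one_mul] at this
      exact this.comp_ofReal
    refine (HasDerivAt.fun_sum fun i _ => ((der_re ((hF i _ hm _
      ⟨1, right_mem_Icc.2 zero_le_one, pt_one⟩).comp_of_eq τ (d0 _) rfl)).sub (der_re ((hF i _ hm _
      ⟨0, left_mem_Icc.2 zero_le_one, pt_zero⟩).comp_of_eq τ (d0 _) rfl))).smul_const
        (c i)).congr_deriv ?_
    exact (hG _ hm).bd fun x y => (ρ x / y * (s' - s)).re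
  have h4 := constant_of_has_deriv_right_zero
    (fun τ hτ => (h3 τ hτ).continuousAt.continuousWithinAt)
    (fun τ hτ => (h3 τ (Ico_subset_Icc_self hτ)).hasDerivWithinAt) 1 (right_mem_Icc.2 zero_le_one)
  rw [h2 s hs, h2 s' hs']
  simpa using h4.symm

lemma logder {p : ℝ → ℂ} {p' : ℂ} {t : ℝ} (h : HasDerivAt p p' t) (h0 : p t ≠ 0) :
    HasDerivAt (fun t => Real.log ‖p t‖) (p' / p t).re t := by
  have h1 := der_re ((h.div_const (p t)).clog_real (by rw [div_self h0]; simp))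
  rw [div_self h0, div_one] at h1
  refine (h1.add_const (Real.log ‖p t‖)).congr_of_eventuallyEq ?_
  filter_upwards [h.continuousAt.eventually_ne h0] with u hu
  rw [log_re, norm_div, Real.log_div (norm_ne_zero_iff.2 hu) (norm_ne_zero_iff.2 h0)]
  ring

lemma alg {A B A' B' F' Y d : ℂ} (hY : Y ≠ 0) (n1 : A + B * Y ≠ 0) (n2 : A - B * Y ≠ 0) :
    (A' * d + (B' * d * Y + B * (1 / (2 * Y) * (F' * d)))) / (A + B * Y) -
      (A' * d - (B' * d * Y + B * (1 / (2 * Y) * (F' * d)))) / (A - B * Y) =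
    (2 * Y ^ 2 * (A * B' - A' * B) + F' * A * B) / ((A + B * Y) * (A - B * Y)) * (d / Y) := by
  rw [div_sub_div _ _ n1 n2, div_mul_eq_mul_div]
  congr 1
  field_simp
  ring

lemma JJ_pell {f A B : ℂ[X]} (h : Val (fun x => f.eval x) a s)
    (hN : ∀ x ∈ seg a s, (A ^ 2 - f * B ^ 2).eval x ≠ 0) :
    (JJ (fun x => f.eval x) a s fun x =>
      (WW derivative f A B).eval x / (A ^ 2 - f * B ^ 2).eval x).re =
    (Real.log ‖A.eval (a.x1 + s) + B.eval (a.x1 + s) * sq a.w (f.eval (a.x1 + s))‖ -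
      Real.log ‖A.eval (a.x1 + s) - B.eval (a.x1 + s) * sq a.w (f.eval (a.x1 + s))‖) -
    (Real.log ‖A.eval (a.x0 + s) + B.eval (a.x0 + s) * sq a.w (f.eval (a.x0 + s))‖ -
      Real.log ‖A.eval (a.x0 + s) - B.eval (a.x0 + s) * sq a.w (f.eval (a.x0 + s))‖) := by
  have hi := int_int f.continuous h (ρ := fun x =>
    (WW derivative f A B).eval x / (A ^ 2 - f * B ^ 2).eval x)
    ((Polynomial.continuous _).continuousOn.div (Polynomial.continuous _).continuousOn hN)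
  rw [← pt_one, ← pt_zero, JJ, ← reCLM_apply, ← reCLM.intervalIntegral_comp_comm hi]
  refine intervalIntegral.integral_eq_sub_of_hasDerivAt (f := fun t =>
    Real.log ‖A.eval (pt a s t) + B.eval (pt a s t) * sq a.w (f.eval (pt a s t))‖ -
      Real.log ‖A.eval (pt a s t) - B.eval (pt a s t) * sq a.w (f.eval (pt a s t))‖)
    (fun t ht => ?_) ⟨reCLM.integrable_comp hi.1, reCLM.integrable_comp hi.2⟩
  rw [uIcc_of_le zero_le_one] at ht
  have dp : ∀ p : ℂ[X], HasDerivAt (fun t => p.eval (pt a s t))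
      (p.derivative.eval (pt a s t) * (a.x1 - a.x0)) t := fun p =>
    (p.hasDerivAt _).comp_of_eq t (pt_der t) rfl
  have dY := (hasDerivAt_sq (h t ht)).comp_of_eq t (dp f) rfl
  have hY := sq_ne (h t ht)
  have h2 := sq_sq (ne_of_re (h t ht)).1 (f.eval (pt a s t))
  have h3 := hN _ ⟨t, ht, rfl⟩
  have d1 := (dp A).add ((dp B).mul dY)
  have d2 := (dp A).sub ((dp B).mul dY)
  simp only [eval_sub, eval_pow, eval_mul] at h3
  simp only [Function.comp] at d1 d2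
  set Y := sq a.w (f.eval (pt a s t)) with hYd
  have e : A.eval (pt a s t) ^ 2 - f.eval (pt a s t) * B.eval (pt a s t) ^ 2 =
      (A.eval (pt a s t) + B.eval (pt a s t) * Y) * (A.eval (pt a s t) - B.eval (pt a s t) * Y) := by
    rw [← h2]; ring
  rw [e] at h3
  have n1 := left_ne_zero_of_mul h3
  have n2 := right_ne_zero_of_mul h3
  refine ((logder d1 n1).sub (logder d2 n2)).congr_deriv ?_
  rw [← sub_re, reCLM_apply]
  congr 1
  simp only [kr, WW, eval_sub, eval_add, eval_pow, eval_mul, eval_ofNat, Pi.add_apply,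
    Pi.sub_apply, Pi.mul_apply, Function.comp_apply]
  rw [← hYd, e, ← h2]
  exact alg hY n1 n2

theorem PP_pell {f A B : ℂ[X]} (h : Good st c (fun x => f.eval x) s)
    (hN : ∀ x ∈ Gam st s, (A ^ 2 - f * B ^ 2).eval x ≠ 0) :
    PP st c (fun x => f.eval x) s (fun x =>
      (WW derivative f A B).eval x / (A ^ 2 - f * B ^ 2).eval x) = 0 := by
  rw [← h.bd fun x y => Real.log ‖A.eval x + B.eval x * y‖ - Real.log ‖A.eval x - B.eval x * y‖]
  exact Finset.sum_congr rfl fun i _ => by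
    rw [JJ_pell (h.val i) fun x hx => hN x (seg_sub i hx)]

end

end Pool.Agent.MP_8d06cc_nt.RN
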