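import Mathlib

/-! Branches of the square root. -/

namespace Pool.Agent.MP_8d06cc_nt.RN

open Filter Topology Complex

noncomputable section

/-- the branch of the square root with value `w` at `w ^ 2` -/
def sq (w z : ℂ) : ℂ := w * (z / w ^ 2) ^ (2⁻¹ : ℂ)

lemma sq_sq {w : ℂ} (hw : w ≠ 0) (z : ℂ) : sq w z ^ 2 = z := by
  rw [sq, mul_pow, cpow_ofNat_inv_pow]; field_simp

lemma sq_self {w : ℂ} (hw : w ≠ 0) : sq w (w ^ 2) = w := by
  rw [sq, div_self (pow_ne_zero _ hw), one_cpow, mul_one]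

lemma sq_neg (w z : ℂ) : sq (-w) z = -sq w z := by
  rw [sq, sq, neg_sq, neg_mul]

lemma ne_of_re {w z : ℂ} (h : 0 < (z / w ^ 2).re) : w ≠ 0 ∧ z ≠ 0 := by
  constructor <;> rintro rfl <;> simp at h

lemma sq_ne {w z : ℂ} (h : 0 < (z / w ^ 2).re) : sq w z ≠ 0 := fun h0 => by
  have := sq_sq (ne_of_re h).1 z
  rw [h0] at this
  exact (ne_of_re h).2 (by rw [← this]; ring)

lemma re_self {w : ℂ} (hw : w ≠ 0) : 0 < (w ^ 2 / w ^ 2).re := by
  rw [div_self (pow_ne_zero _ hw)]; simp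

lemma hasDerivAt_sq {w z : ℂ} (h : 0 < (z / w ^ 2).re) :
    HasDerivAt (sq w) (1 / (2 * sq w z)) z := by
  have h1 : DifferentiableAt ℂ (sq w) z :=
    (((hasDerivAt_id z).div_const (w ^ 2)).cpow_const (c := 2⁻¹) (Or.inl h)).differentiableAt.const_mul w
  have h2 := h1.hasDerivAt.pow 2
  have h3 : (sq w ^ 2) = id := funext fun x => sq_sq (ne_of_re h).1 x
  rw [h3] at h2
  have h4 := h2.unique (hasDerivAt_id z)
  have h5 := sq_ne h
  have h6 : deriv (sq w) z = 1 / (2 * sq w z) := by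
    rw [eq_div_iff (mul_ne_zero two_ne_zero h5), ← h4]; simp; ring
  rw [← h6]
  exact h1.hasDerivAt

lemma contAt_sq {w z : ℂ} (h : 0 < (z / w ^ 2).re) : ContinuousAt (sq w) z :=
  (hasDerivAt_sq h).continuousAt

/-- two square roots that are close to the same non-zero number agree -/
lemma root_eq {α : Type*} {l : Filter α} {a b : α → ℂ} {w : ℂ} (hw : w ≠ 0)
    (ha : Tendsto a l (𝓝 w)) (hb : Tendsto b l (𝓝 w)) (h : ∀ᶠ x in l, a x ^ 2 = b x ^ 2) :
    ∀ᶠ x in l, a x = b x := by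
  have h1 : ∀ᶠ x in l, a x + b x ≠ 0 :=
    (ha.add hb).eventually_ne (by rw [← two_mul]; exact mul_ne_zero two_ne_zero hw)
  filter_upwards [h, h1] with x h2 h3
  refine sub_eq_zero.1 ((mul_eq_zero.1 ?_).resolve_left h3)
  linear_combination h2

lemma ev_re {α : Type*} {l : Filter α} {h : α → ℂ} {w z : ℂ} (hz : 0 < (z / w ^ 2).re)
    (hh : Tendsto h l (𝓝 z)) : ∀ᶠ x in l, 0 < (h x / w ^ 2).re :=
  ((continuous_re.tendsto _).comp (hh.div_const _)).eventually (lt_mem_nhds hz)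

end

end Pool.Agent.MP_8d06cc_nt.RN
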